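import Pool.Agent.Lib.MP_0e7911_co_h89.StatDefs

/-!
# C7c: the correction term of the chain statistic is the cell statistic
-/

set_option autoImplicit false

namespace Pool.Agent.Lib.MP_0e7911_co_h89

open Finset Pool.Agent.Lib.MP_0e7911_co_h50 Pool.Agent.Lib.MP_0e7911_co_full

/-- the height of the path at the abscissa `c` -/
def hh {n : ℕ} (x : Fin n → ℕ) (c : ℕ) : ℕ := (univ.filter (fun i : Fin n => x i < c)).card

/-- the row which the column `c` must have reached -/
def yy (m : ℕ) {n : ℕ} (x : Fin n → ℕ) (u : Fin n) (c : ℕ) : ℤ :=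
  (u : ℕ) + 1 + (-((n : ℤ) * ((x u : ℤ) - c))) / m

/-- a lower set of `Fin n` is an initial segment -/
theorem lt_card_iff {n : ℕ} (P : Fin n → Prop) [DecidablePred P]
    (hP : ∀ i j, i ≤ j → P j → P i) (v : Fin n) : (v : ℕ) < (univ.filter P).card ↔ P v := by
  constructor
  · intro h
    by_contra hv
    have h1 : univ.filter P ⊆ Finset.Iio v := by
      intro i hi
      rw [mem_filter] at hi
      rw [Finset.mem_Iio]
      by_contra hiv
      exact hv (hP v i (not_lt.1 hiv) hi.2)
    have h2 := card_le_card h1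
    rw [Fin.card_Iio] at h2
    omega
  · intro h
    have h1 : Finset.Iic v ⊆ univ.filter P := by
      intro i hi
      rw [mem_filter]
      exact ⟨mem_univ _, hP i v (Finset.mem_Iic.1 hi) h⟩
    have h2 := card_le_card h1
    rw [Fin.card_Iic] at h2
    omega

theorem lt_hh {n : ℕ} {x : Fin n → ℕ} (hx : Monotone x) (c : ℕ) (v : Fin n) :
    (v : ℕ) < hh x c ↔ x v < c :=
  lt_card_iff _ (fun _ _ hij h => lt_of_le_of_lt (hx hij) h) v

theorem hh_mono {n : ℕ} (x : Fin n → ℕ) (c : ℕ) : hh x c ≤ hh x (c + 1) := by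
  refine card_le_card ?_
  intro i hi
  rw [mem_filter] at hi ⊢
  exact ⟨hi.1, by omega⟩

theorem bet_eq {n : ℕ} {x : Fin n → ℕ} (hx : Monotone x) (u : Fin n) (c : ℕ) (hc : c < x u) :
    bet x u c + hh x (c + 1) = u := by
  have h1 : (univ.filter (fun i : Fin n => i < u ∧ c < x i)).card +
      (univ.filter (fun i : Fin n => x i < c + 1)).card = (Finset.Iio u).card := by
    rw [← card_union_of_disjoint]
    · congr 1
      ext i
      simp only [mem_union, mem_filter, mem_univ, true_and, Finset.mem_Iio]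
      constructor
      · rintro (h | h)
        · exact h.1
        · by_contra hi
          have := hx (not_lt.1 hi)
          omega
      · intro h
        by_cases h2 : c < x i
        · exact Or.inl ⟨h, h2⟩
        · exact Or.inr (by omega)
    · rw [disjoint_left]
      intro i hi hi'
      rw [mem_filter] at hi hi'
      omega
  rw [Fin.card_Iio] at h1
  exact h1

/-- C7c: for Dyck paths the correction term is `cdinv` -/
theorem cst_eq {m n : ℕ} (hm : 0 < m) (hn : 0 < n) (x : Fin n → ℕ) (hx : Monotone x)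
    (hD : ∀ i : Fin n, n * x i ≤ m * i) : cst m x = cdinvZ m x := by
  have hm' : (0 : ℤ) < m := by exact_mod_cast hm
  unfold cst cdinvZ
  refine Finset.sum_congr rfl fun u _ => ?_
  rw [← sub_eq_zero, ← Finset.sum_sub_distrib]
  have key : ∀ c ∈ range (x u),
      (((if ((univ.filter (fun i : Fin n => x i < c)).card : ℤ) =
          (u : ℕ) + 1 + (-((n : ℤ) * ((x u : ℤ) - c))) / m ∧
        ((univ.filter (fun i : Fin n => x i < c + 1)).card : ℤ) =
          (u : ℕ) + 1 + (-((n : ℤ) * ((x u : ℤ) - c))) / m then 1 else 0) -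
     (if ((univ.filter (fun i : Fin n => x i < c)).card : ℤ) <
          (u : ℕ) + 1 + (-((n : ℤ) * ((x u : ℤ) - c))) / m ∧
        (u : ℕ) + 1 + (-((n : ℤ) * ((x u : ℤ) - c))) / m <
        ((univ.filter (fun i : Fin n => x i < c + 1)).card : ℤ) then 1 else 0)) -
      cellZ m x u c : ℤ) =
      (if (hh x (c + 1) : ℤ) < yy m x u (c + 1) then 1 else 0) -
      (if (hh x c : ℤ) < yy m x u c then 1 else 0) := by
    intro c hc
    rw [mem_range] at hc
    change (((if (hh x c : ℤ) = yy m x u c ∧ (hh x (c + 1) : ℤ) = yy m x u c then 1 else 0) -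
      (if (hh x c : ℤ) < yy m x u c ∧ yy m x u c < (hh x (c + 1) : ℤ) then 1 else 0)) -
      cellZ m x u c : ℤ) = _
    have hb := bet_eq hx u c hc
    have hmono := hh_mono x c
    -- the two conditions of the cell in terms of `yy`
    have e1 : n * (x u - 1 - c + 1) ≤ m * (bet x u c + 1) ↔ (hh x (c + 1) : ℤ) ≤ yy m x u c := by
      have h1 : ((x u - 1 - c + 1 : ℕ) : ℤ) = (x u : ℤ) - c := by omega
      have h2 : (hh x (c + 1) : ℤ) ≤ yy m x u c ↔
          -((bet x u c : ℤ) + 1) ≤ (-((n : ℤ) * ((x u : ℤ) - c))) / m := by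
        unfold yy; omega
      rw [h2, Int.le_ediv_iff_mul_le hm', ← h1]
      constructor
      · intro h
        have h' : ((n * (x u - 1 - c + 1) : ℕ) : ℤ) ≤ ((m * (bet x u c + 1) : ℕ) : ℤ) := by
          exact_mod_cast h
        push_cast at h' ⊢
        nlinarith
      · intro h
        have h' : ((n * (x u - 1 - c + 1) : ℕ) : ℤ) ≤ ((m * (bet x u c + 1) : ℕ) : ℤ) := by
          push_cast at h ⊢
          nlinarith
        exact_mod_cast h'
    have e2 : m * bet x u c < n * (x u - 1 - c) ↔ yy m x u (c + 1) ≤ (hh x (c + 1) : ℤ) := by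
      have h1 : ((x u - 1 - c : ℕ) : ℤ) = (x u : ℤ) - ((c + 1 : ℕ) : ℤ) := by omega
      have h2 : yy m x u (c + 1) ≤ (hh x (c + 1) : ℤ) ↔
          (-((n : ℤ) * ((x u : ℤ) - ((c + 1 : ℕ) : ℤ)))) / m < -(bet x u c : ℤ) := by
        unfold yy; omega
      rw [h2, Int.ediv_lt_iff_lt_mul hm', ← h1]
      constructor
      · intro h
        have h' : ((m * bet x u c : ℕ) : ℤ) < ((n * (x u - 1 - c) : ℕ) : ℤ) := by
          exact_mod_cast h
        push_cast at h' ⊢
        nlinarith
      · intro h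
        have h' : ((m * bet x u c : ℕ) : ℤ) < ((n * (x u - 1 - c) : ℕ) : ℤ) := by
          push_cast at h ⊢
          nlinarith
        exact_mod_cast h'
    have e1' : m * (bet x u c + 1) < n * (x u - 1 - c + 1) ↔ yy m x u c < (hh x (c + 1) : ℤ) := by
      rw [← not_le, e1, not_le]
    have e2' : n * (x u - 1 - c) ≤ m * bet x u c ↔ (hh x (c + 1) : ℤ) < yy m x u (c + 1) := by
      rw [← not_lt, e2, not_le]
    have ymono : yy m x u c ≤ yy m x u (c + 1) := by
      unfold yy
      have : (-((n : ℤ) * ((x u : ℤ) - c))) / m ≤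
          (-((n : ℤ) * ((x u : ℤ) - ((c + 1 : ℕ) : ℤ)))) / m := by
        refine Int.ediv_le_ediv hm' ?_
        push_cast
        have : (0 : ℤ) ≤ n := by positivity
        nlinarith
      omega
    unfold cellZ
    simp only [e1, e2, e1', e2']
    split_ifs <;> omega
  rw [Finset.sum_congr rfl key, Finset.sum_range_sub
    (fun c => if (hh x c : ℤ) < yy m x u c then (1 : ℤ) else 0)]
  have h1 : (hh x (x u) : ℤ) < yy m x u (x u) := by
    have h2 : ¬ ((u : ℕ) < hh x (x u)) := by rw [lt_hh hx]; exact lt_irrefl _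
    unfold yy
    rw [sub_self, mul_zero, neg_zero, Int.zero_ediv]
    omega
  have h2 : (hh x 0 : ℤ) < yy m x u 0 := by
    have h3 : hh x 0 = 0 := by
      unfold hh
      rw [card_eq_zero, filter_eq_empty_iff]
      intro i _
      exact Nat.not_lt_zero _
    rw [h3]
    unfold yy
    have h4 : -((u : ℕ) : ℤ) ≤ (-((n : ℤ) * ((x u : ℤ) - ((0 : ℕ) : ℤ)))) / m := by
      rw [Int.le_ediv_iff_mul_le hm']
      have h5 : ((n * x u : ℕ) : ℤ) ≤ ((m * (u : ℕ) : ℕ) : ℤ) := by exact_mod_cast hD u
      push_cast at h5 ⊢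
      nlinarith
    omega
  rw [if_pos h1, if_pos h2, sub_self]

end Pool.Agent.Lib.MP_0e7911_co_h89
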