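import Pool.Agent.Lib.MP_0e7911_co_h89.Cst

/-!
# C7b: the statistic of the chain of a labelled Dyck path
-/

set_option autoImplicit false

namespace Pool.Agent.Lib.MP_0e7911_co_h89

open Finset Pool.Agent.Lib.MP_0e7911_co_h50 Pool.Agent.Lib.MP_0e7911_co_full

section

variable {n N : ℕ}

/-- the current height of the column `c` before the label `α` -/
def Hb (x : Fin n → ℕ) (w : Fin n → Fin N) (c : ℕ) (α : Fin N) : ℕ :=
  (univ.filter (fun v : Fin n => x v < c ∨ (x v = c ∧ w v < α))).card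

/-- the current height of the column `c` after the label `α` -/
def Ha (x : Fin n → ℕ) (w : Fin n → Fin N) (c : ℕ) (α : Fin N) : ℕ :=
  (univ.filter (fun v : Fin n => x v < c ∨ (x v = c ∧ w v ≤ α))).card

variable {x : Fin n → ℕ} {w : Fin n → Fin N}

theorem lt_Hb (hx : Monotone x) (hw : ∀ i j, i < j → x i = x j → w i < w j) (c : ℕ) (α : Fin N)
    (v : Fin n) : (v : ℕ) < Hb x w c α ↔ x v < c ∨ (x v = c ∧ w v < α) := by
  refine lt_card_iff _ ?_ v
  intro i j hij hj
  have h1 := hx hij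
  rcases hj with h | ⟨h, h'⟩
  · exact Or.inl (lt_of_le_of_lt h1 h)
  · rcases Nat.lt_or_ge (x i) c with h2 | h2
    · exact Or.inl h2
    · have h3 : x i = x j := by omega
      rcases eq_or_lt_of_le hij with h4 | h4
      · rw [h4]; exact Or.inr ⟨h, h'⟩
      · exact Or.inr ⟨by omega, (hw i j h4 h3).trans h'⟩

theorem lt_Ha (hx : Monotone x) (hw : ∀ i j, i < j → x i = x j → w i < w j) (c : ℕ) (α : Fin N)
    (v : Fin n) : (v : ℕ) < Ha x w c α ↔ x v < c ∨ (x v = c ∧ w v ≤ α) := by
  refine lt_card_iff _ ?_ v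
  intro i j hij hj
  have h1 := hx hij
  rcases hj with h | ⟨h, h'⟩
  · exact Or.inl (lt_of_le_of_lt h1 h)
  · rcases Nat.lt_or_ge (x i) c with h2 | h2
    · exact Or.inl h2
    · have h3 : x i = x j := by omega
      rcases eq_or_lt_of_le hij with h4 | h4
      · rw [h4]; exact Or.inr ⟨h, h'⟩
      · exact Or.inr ⟨by omega, (hw i j h4 h3).le.trans h'⟩

theorem Hb_le (c : ℕ) (α : Fin N) : Hb x w c α ≤ hh x (c + 1) := by
  refine card_le_card ?_
  intro i hi
  rw [mem_filter] at hi ⊢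
  exact ⟨hi.1, by omega⟩

theorem Ha_le (c : ℕ) (α : Fin N) : Ha x w c α ≤ hh x (c + 1) := by
  refine card_le_card ?_
  intro i hi
  rw [mem_filter] at hi ⊢
  exact ⟨hi.1, by omega⟩

theorem hh_le_Hb (c : ℕ) (α : Fin N) : hh x c ≤ Hb x w c α := by
  refine card_le_card ?_
  intro i hi
  rw [mem_filter] at hi ⊢
  exact ⟨hi.1, Or.inl hi.2⟩

theorem hh_le (c : ℕ) : hh x c ≤ n := by
  have := card_le_univ (univ.filter (fun i : Fin n => x i < c))
  rw [Fintype.card_fin] at this
  exact this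

theorem inj_col (hw : ∀ i j, i < j → x i = x j → w i < w j) {i j : Fin n} (h : x i = x j)
    (h' : w i = w j) : i = j := by
  rcases lt_trichotomy i j with h1 | h1 | h1
  · exact absurd h' (hw i j h1 h).ne
  · exact h1
  · exact absurd h'.symm (hw j i h1 h.symm).ne

/-- after = before + 1 if the label is in the column -/
theorem Ha_eq (hw : ∀ i j, i < j → x i = x j → w i < w j) (c : ℕ) (α : Fin N) :
    Ha x w c α = Hb x w c α + (if ∃ i, x i = c ∧ w i = α then 1 else 0) := by
  have h1 : Ha x w c α = Hb x w c α +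
      (univ.filter (fun v : Fin n => x v = c ∧ w v = α)).card := by
    unfold Ha Hb
    rw [← card_union_of_disjoint]
    · congr 1
      ext v
      simp only [mem_union, mem_filter, mem_univ, true_and]
      constructor
      · rintro (h | ⟨h, h'⟩)
        · exact Or.inl (Or.inl h)
        · rcases eq_or_lt_of_le h' with h2 | h2
          · exact Or.inr ⟨h, h2⟩
          · exact Or.inl (Or.inr ⟨h, h2⟩)
      · rintro ((h | ⟨h, h'⟩) | ⟨h, h'⟩)
        · exact Or.inl h
        · exact Or.inr ⟨h, h'.le⟩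
        · exact Or.inr ⟨h, h'.le⟩
    · rw [disjoint_left]
      intro i hi hi'
      rw [mem_filter] at hi hi'
      rcases hi.2 with h | ⟨_, h⟩
      · omega
      · exact h.ne hi'.2.2
  rw [h1]
  congr 1
  split_ifs with h
  · obtain ⟨i, hi, hi'⟩ := h
    rw [card_eq_one]
    refine ⟨i, ?_⟩
    ext j
    rw [mem_filter, mem_singleton]
    constructor
    · rintro ⟨_, h2, h3⟩
      exact inj_col hw (h2.trans hi.symm) (h3.trans hi'.symm)
    · rintro rfl
      exact ⟨mem_univ _, hi, hi'⟩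
  · rw [card_eq_zero, filter_eq_empty_iff]
    intro i _ hi
    exact h ⟨i, hi⟩

theorem sum_row (y : ℤ) (lo hi : ℕ) (hhi : hi ≤ n) (P : Fin n → Prop) [DecidablePred P]
    (hP : ∀ v : Fin n, P v ↔ lo ≤ (v : ℕ) ∧ (v : ℕ) < hi) :
    (∑ v : Fin n, if P v ∧ ((v : ℕ) : ℤ) = y then (1 : ℤ) else 0) =
      if (lo : ℤ) ≤ y ∧ y < (hi : ℤ) then 1 else 0 := by
  by_cases h : (lo : ℤ) ≤ y ∧ y < (hi : ℤ)
  · rw [if_pos h]
    obtain ⟨k, rfl⟩ : ∃ k : ℕ, y = k := ⟨y.toNat, by omega⟩
    have hk : k < n := by omega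
    rw [Finset.sum_eq_single (⟨k, hk⟩ : Fin n)]
    · rw [if_pos]
      exact ⟨(hP _).2 ⟨by show lo ≤ k; omega, by show k < hi; omega⟩, rfl⟩
    · intro v _ hv
      rw [if_neg]
      rintro ⟨_, h2⟩
      apply hv
      apply Fin.ext
      show (v : ℕ) = k
      exact_mod_cast h2
    · intro h2; exact absurd (mem_univ _) h2
  · rw [if_neg h]
    refine Finset.sum_eq_zero fun v _ => ?_
    rw [if_neg]
    rintro ⟨h1, h2⟩
    have := (hP v).1 h1
    omega

/-- the local identity -/
theorem local_id (hx : Monotone x) (hw : ∀ i j, i < j → x i = x j → w i < w j) (c : ℕ)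
    (α : Fin N) (y : ℤ) :
    (if (¬ ∃ i, x i = c ∧ w i = α) ∧ (Hb x w c α : ℤ) = y then (1 : ℤ) else 0) =
      (∑ v : Fin n, if (x v = c ∧ α < w v) ∧ ((v : ℕ) : ℤ) = y then (1 : ℤ) else 0) +
      (∑ v : Fin n, if (x v = c ∧ w v < α) ∧ ((v : ℕ) : ℤ) = y - 1 then (1 : ℤ) else 0) +
      ((if (hh x c : ℤ) = y ∧ (hh x (c + 1) : ℤ) = y then 1 else 0) -
        (if (hh x c : ℤ) < y ∧ y < (hh x (c + 1) : ℤ) then 1 else 0)) := by
  have h1 : ∀ v : Fin n, (x v = c ∧ α < w v) ↔
      Ha x w c α ≤ (v : ℕ) ∧ (v : ℕ) < hh x (c + 1) := by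
    intro v
    rw [← not_lt, lt_Ha hx hw, lt_hh hx]
    constructor
    · rintro ⟨h, h'⟩
      refine ⟨?_, by omega⟩
      rintro (h2 | ⟨_, h2⟩)
      · omega
      · exact absurd h' (not_lt.2 h2)
    · rintro ⟨h, h'⟩
      have h2 : x v = c := by
        by_contra h3
        exact h (Or.inl (by omega))
      refine ⟨h2, ?_⟩
      by_contra h3
      exact h (Or.inr ⟨h2, not_lt.1 h3⟩)
  have h2 : ∀ v : Fin n, (x v = c ∧ w v < α) ↔
      hh x c ≤ (v : ℕ) ∧ (v : ℕ) < Hb x w c α := by
    intro v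
    rw [← not_lt, lt_Hb hx hw, lt_hh hx]
    constructor
    · rintro ⟨h, h'⟩
      exact ⟨by omega, Or.inr ⟨h, h'⟩⟩
    · rintro ⟨h, h' | h'⟩
      · exact absurd h' h
      · exact h'
  rw [sum_row y _ _ (hh_le _) _ h1, sum_row (y - 1) _ _ ((Hb_le c α).trans (hh_le _)) _ h2]
  have e1 := Ha_eq (x := x) hw c α
  have e2 := Hb_le (x := x) (w := w) c α
  have e3 := Ha_le (x := x) (w := w) c α
  have e4 := hh_le_Hb (x := x) (w := w) c α
  by_cases h : ∃ i, x i = c ∧ w i = α
  · rw [if_pos h] at e1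
    rw [if_neg (fun h' => h'.1 h)]
    split_ifs <;> omega
  · rw [if_neg h] at e1
    simp only [h, not_false_eq_true, true_and]
    split_ifs <;> omega

theorem Hb_self (hx : Monotone x) (hw : ∀ i j, i < j → x i = x j → w i < w j) (u : Fin n) :
    Hb x w (x u) (w u) = u := by
  have h : univ.filter (fun v : Fin n => x v < x u ∨ (x v = x u ∧ w v < w u)) = Finset.Iio u := by
    ext v
    rw [mem_filter, Finset.mem_Iio]
    constructor
    · rintro ⟨_, h⟩
      by_contra h1
      have h2 := hx (not_lt.1 h1)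
      rcases h with h | ⟨h, h'⟩
      · omega
      · rcases eq_or_lt_of_le (not_lt.1 h1) with h3 | h3
        · rw [h3] at h'; exact lt_irrefl _ h'
        · exact absurd (hw u v h3 h.symm) (not_lt.2 h'.le)
    · intro h
      refine ⟨mem_univ _, ?_⟩
      rcases Nat.lt_or_ge (x v) (x u) with h1 | h1
      · exact Or.inl h1
      · have h2 := hx h.le
        have h3 : x v = x u := by omega
        exact Or.inr ⟨h3, hw v u h h3⟩
  unfold Hb
  rw [h, Fin.card_Iio]

/-- the pairs with the attacked step to the left -/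
theorem att_left {m : ℕ} (hm : 0 < m) (hx : Monotone x) (u v : Fin n) :
    (x v < x u ∧ ((v : ℕ) : ℤ) = yy m x u (x v)) ↔ (v < u ∧ attZ m x u v) := by
  have hm' : (0 : ℤ) < m := by exact_mod_cast hm
  have h1 : ((v : ℕ) : ℤ) = yy m x u (x v) ↔ lam m x u < lam m x v ∧ lam m x v ≤ lam m x u + m := by
    unfold yy lam
    have h2 : ((v : ℕ) : ℤ) = (u : ℕ) + 1 + (-((n : ℤ) * ((x u : ℤ) - (x v : ℕ)))) / m ↔
        ((v : ℕ) : ℤ) - (u : ℕ) - 1 ≤ (-((n : ℤ) * ((x u : ℤ) - (x v : ℕ)))) / m ∧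
        (-((n : ℤ) * ((x u : ℤ) - (x v : ℕ)))) / m < ((v : ℕ) : ℤ) - (u : ℕ) := by omega
    rw [h2, Int.le_ediv_iff_mul_le hm', Int.ediv_lt_iff_lt_mul hm']
    constructor
    · rintro ⟨h3, h4⟩; constructor <;> nlinarith
    · rintro ⟨h3, h4⟩; constructor <;> nlinarith
  rw [h1]
  unfold attZ
  constructor
  · rintro ⟨h2, h3, h4⟩
    have h5 : v < u := by
      by_contra h6
      have := hx (not_lt.1 h6)
      omega
    refine ⟨h5, Or.inl h3, ?_⟩
    rcases eq_or_lt_of_le h4 with h6 | h6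
    · exact Or.inr ⟨h6, h5⟩
    · exact Or.inl h6
  · rintro ⟨h2, h3, h4⟩
    have h5 : lam m x u < lam m x v := by
      rcases h3 with h3 | h3
      · exact h3
      · exact absurd h2 (not_lt.2 h3.2.le)
    refine ⟨?_, h5, ?_⟩
    · by_contra h6
      have h7 : x v = x u := le_antisymm (hx h2.le) (not_lt.1 h6)
      unfold lam at h5
      rw [h7] at h5
      have h8 : ((v : ℕ) : ℤ) < (u : ℕ) := by exact_mod_cast h2
      nlinarith
    · rcases h4 with h4 | h4
      · exact h4.le
      · exact h4.1.le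

/-- the pairs with the attacked step to the right -/
theorem att_right {m : ℕ} (hm : 0 < m) (hx : Monotone x) (u v : Fin n) :
    (x v < x u ∧ ((v : ℕ) : ℤ) = yy m x u (x v) - 1) ↔ (v < u ∧ attZ m x v u) := by
  have hm' : (0 : ℤ) < m := by exact_mod_cast hm
  have h1 : ((v : ℕ) : ℤ) = yy m x u (x v) - 1 ↔
      lam m x v ≤ lam m x u ∧ lam m x u < lam m x v + m := by
    unfold yy lam
    have h2 : ((v : ℕ) : ℤ) = (u : ℕ) + 1 + (-((n : ℤ) * ((x u : ℤ) - (x v : ℕ)))) / m - 1 ↔
        ((v : ℕ) : ℤ) - (u : ℕ) ≤ (-((n : ℤ) * ((x u : ℤ) - (x v : ℕ)))) / m ∧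
        (-((n : ℤ) * ((x u : ℤ) - (x v : ℕ)))) / m < ((v : ℕ) : ℤ) - (u : ℕ) + 1 := by omega
    rw [h2, Int.le_ediv_iff_mul_le hm', Int.ediv_lt_iff_lt_mul hm']
    constructor
    · rintro ⟨h3, h4⟩; constructor <;> nlinarith
    · rintro ⟨h3, h4⟩; constructor <;> nlinarith
  rw [h1]
  unfold attZ
  constructor
  · rintro ⟨h2, h3, h4⟩
    have h5 : v < u := by
      by_contra h6
      have := hx (not_lt.1 h6)
      omega
    refine ⟨h5, ?_, Or.inl h4⟩
    rcases eq_or_lt_of_le h3 with h6 | h6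
    · exact Or.inr ⟨h6, h5⟩
    · exact Or.inl h6
  · rintro ⟨h2, h3, h4⟩
    have h5 : lam m x u < lam m x v + m := by
      rcases h4 with h4 | h4
      · exact h4
      · exact absurd h2 (not_lt.2 h4.2.le)
    refine ⟨?_, ?_, h5⟩
    · by_contra h6
      have h7 : x v = x u := le_antisymm (hx h2.le) (not_lt.1 h6)
      unfold lam at h5
      rw [h7] at h5
      have h8 : ((v : ℕ) : ℤ) + 1 ≤ (u : ℕ) := by exact_mod_cast h2
      nlinarith
    · rcases h3 with h3 | h3
      · exact h3.le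
      · exact h3.1.le

/-- summation over the columns to the left of `u` -/
theorem sum_cols (u v : Fin n) (R : ℕ → Prop) [DecidablePred R] :
    (∑ c ∈ range (x u), if (x v = c) ∧ R c then (1 : ℤ) else 0) =
      if x v < x u ∧ R (x v) then 1 else 0 := by
  by_cases h : x v < x u
  · rw [Finset.sum_eq_single (x v)]
    · simp only [true_and, h]
    · intro c _ hc
      rw [if_neg (fun h' => hc h'.1.symm)]
    · intro h'
      exact absurd (mem_range.2 h) h'
  · rw [if_neg (fun h' => h h'.1)]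
    refine Finset.sum_eq_zero fun c hc => ?_
    rw [mem_range] at hc
    rw [if_neg]
    rintro ⟨h1, _⟩
    omega

theorem tdinv_eq (m : ℕ) : (tdinvZ m x w : ℤ) =
    ∑ u : Fin n, ((∑ v : Fin n, if (v < u ∧ attZ m x u v) ∧ w u < w v then (1 : ℤ) else 0) +
      (∑ v : Fin n, if (v < u ∧ attZ m x v u) ∧ w v < w u then (1 : ℤ) else 0)) := by
  have h0 : (tdinvZ m x w : ℤ) =
      ∑ u : Fin n, ∑ v : Fin n, if w u < w v ∧ attZ m x u v then (1 : ℤ) else 0 := by
    unfold tdinvZ
    rw [← Finset.sum_boole, ← Finset.univ_product_univ, Finset.sum_product]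
  have h1 : ∀ u v : Fin n, (if w u < w v ∧ attZ m x u v then (1 : ℤ) else 0) =
      (if (v < u ∧ attZ m x u v) ∧ w u < w v then 1 else 0) +
      (if (u < v ∧ attZ m x u v) ∧ w u < w v then 1 else 0) := by
    intro u v
    rcases lt_trichotomy u v with h | h | h
    · have h' : ¬ v < u := not_lt.2 h.le
      simp only [h, h', true_and, false_and, if_false, zero_add]
      exact if_congr and_comm rfl rfl
    · subst h
      simp
    · have h' : ¬ u < v := not_lt.2 h.le
      simp only [h, h', true_and, false_and, if_false, add_zero]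
      exact if_congr and_comm rfl rfl
  rw [h0]
  simp only [h1, Finset.sum_add_distrib]
  congr 1
  rw [Finset.sum_comm]

end

theorem rk_add {m n c h k : ℕ} (hc : n * c ≤ m * h) :
    rk m n c (h + k) = rk m n c h + (m + 1) * m * k := by
  unfold rk
  have : m * (h + k) - n * c = (m * h - n * c) + m * k := by
    rw [mul_add]; omega
  rw [this]; ring

/-- the rank condition singles out one height -/
theorem rk_cond {m n : ℕ} {c xu u H : ℕ} (hc : c < xu) (hxm : xu < m) (h1 : n * xu ≤ m * u)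
    (h2 : n * c ≤ m * H) :
    (rk m n xu u < rk m n c H ∧ rk m n c H < rk m n xu u + (m + 1) * m) ↔
      (H : ℤ) = (u : ℤ) + 1 + (-((n : ℤ) * ((xu : ℤ) - c))) / m := by
  have hm' : (0 : ℤ) < m := by
    have : 0 < m := by omega
    exact_mod_cast this
  have e1 : (rk m n xu u : ℤ) = ((m : ℤ) + 1) * ((m : ℤ) * u - n * xu) + xu := by
    unfold rk
    push_cast [Nat.cast_sub h1]
    ring
  have e2 : (rk m n c H : ℤ) = ((m : ℤ) + 1) * ((m : ℤ) * H - n * c) + c := by
    unfold rk
    push_cast [Nat.cast_sub h2]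
    ring
  have h3 : (H : ℤ) = (u : ℤ) + 1 + (-((n : ℤ) * ((xu : ℤ) - c))) / m ↔
      (H : ℤ) - u - 1 ≤ (-((n : ℤ) * ((xu : ℤ) - c))) / m ∧
      (-((n : ℤ) * ((xu : ℤ) - c))) / m < (H : ℤ) - u := by omega
  rw [h3, Int.le_ediv_iff_mul_le hm', Int.ediv_lt_iff_lt_mul hm', ← Nat.cast_lt (α := ℤ),
    ← Nat.cast_lt (α := ℤ) (m := rk m n c H), e2, Nat.cast_add, e1]
  push_cast
  set k : ℤ := ((m : ℤ) * H - n * c) - ((m : ℤ) * u - n * xu) with hk
  have hc' : (c : ℤ) + 1 ≤ xu := by exact_mod_cast hc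
  have hxm' : (xu : ℤ) + 1 ≤ m := by exact_mod_cast hxm
  have hc0 : (0 : ℤ) ≤ c := by positivity
  constructor
  · rintro ⟨h4, h5⟩
    have h6 : 1 ≤ k := by
      by_contra h7
      have h8 : k ≤ 0 := by omega
      have : ((m : ℤ) + 1) * k ≤ 0 := mul_nonpos_of_nonneg_of_nonpos (by omega) h8
      have h9 : ((m : ℤ) + 1) * k = ((m : ℤ) + 1) * ((m : ℤ) * H - n * c) -
        ((m : ℤ) + 1) * ((m : ℤ) * u - n * xu) := by rw [hk]; ring
      linarith
    have h7 : k ≤ m := by
      by_contra h7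
      have h8 : (m : ℤ) + 1 ≤ k := by omega
      have : ((m : ℤ) + 1) * (m + 1) ≤ ((m : ℤ) + 1) * k :=
        mul_le_mul_of_nonneg_left h8 (by omega)
      have h9 : ((m : ℤ) + 1) * k = ((m : ℤ) + 1) * ((m : ℤ) * H - n * c) -
        ((m : ℤ) + 1) * ((m : ℤ) * u - n * xu) := by rw [hk]; ring
      nlinarith
    constructor <;> nlinarith
  · rintro ⟨h4, h5⟩
    have h6 : 1 ≤ k := by nlinarith
    have h7 : k ≤ m := by nlinarith
    have h9 : ((m : ℤ) + 1) * k = ((m : ℤ) + 1) * ((m : ℤ) * H - n * c) -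
        ((m : ℤ) + 1) * ((m : ℤ) * u - n * xu) := by rw [hk]; ring
    have h10 : ((m : ℤ) + 1) * 1 ≤ ((m : ℤ) + 1) * k := mul_le_mul_of_nonneg_left h6 (by omega)
    have h11 : ((m : ℤ) + 1) * k ≤ ((m : ℤ) + 1) * m := mul_le_mul_of_nonneg_left h7 (by omega)
    constructor <;> linarith

/-- C7b: the statistic of the chain of a labelled Dyck path -/
theorem stat_eq {m n N : ℕ} (x : Fin n → Fin m) (w : Fin n → Fin N) (hx : Monotone x)
    (hw : ∀ i j, i < j → x i = x j → w i < w j) (hD : ∀ i : Fin n, n * (x i : ℕ) ≤ m * i) :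
    ((∑ α : Fin N, cstat ((m + 1) * m)
      (cbef ((m + 1) * m) (fun c : Fin m => rk m n c (hgt x c)) (colsOf x w) α)
      (colsOf x w α) : ℕ) : ℤ) =
      tdinvZ m (fun i => (x i : ℕ)) w + cst m (fun i => (x i : ℕ)) := by
  set X : Fin n → ℕ := fun i => (x i : ℕ) with hX
  have hXm : Monotone X := fun i j h => hx h
  have hXw : ∀ i j, i < j → X i = X j → w i < w j := fun i j h h' => hw i j h (Fin.ext h')
  have hmem : ∀ (α : Fin N) (c : Fin m), c ∈ colsOf x w α ↔ ∃ i, X i = c ∧ w i = α := by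
    intro α c
    unfold colsOf
    rw [mem_filter]
    constructor
    · rintro ⟨_, i, h1, h2⟩; exact ⟨i, congrArg Fin.val h1, h2⟩
    · rintro ⟨i, h1, h2⟩; exact ⟨mem_univ _, i, Fin.ext h1, h2⟩
  -- the height of the path is above the diagonal
  have hdiag : ∀ c : ℕ, c < m → n * c ≤ m * hh X c := by
    intro c hc
    rcases Nat.lt_or_ge (hh X c) n with h | h
    · have h1 := (lt_hh hXm c ⟨hh X c, h⟩).not.1 (lt_irrefl _)
      have h2 := hD ⟨hh X c, h⟩
      have h3 : n * c ≤ n * (x ⟨hh X c, h⟩ : ℕ) := Nat.mul_le_mul_left n (not_lt.1 h1)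
      exact h3.trans h2
    · calc n * c ≤ n * m := Nat.mul_le_mul_left n hc.le
        _ = m * n := mul_comm _ _
        _ ≤ m * hh X c := Nat.mul_le_mul_left m h
  -- the ranks before a label
  have hbef : ∀ (α : Fin N) (c : Fin m),
      cbef ((m + 1) * m) (fun c : Fin m => rk m n c (hgt x c)) (colsOf x w) α c =
        rk m n c (Hb X w c α) := by
    intro α c
    have h1 : Hb X w c α = hgt x c +
        (univ.filter (fun β : Fin N => β < α ∧ c ∈ colsOf x w β)).card := by
      have h2 : (univ.filter (fun β : Fin N => β < α ∧ c ∈ colsOf x w β)).card =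
          (univ.filter (fun v : Fin n => X v = c ∧ w v < α)).card := by
        symm
        refine Finset.card_bij (fun v _ => w v) ?_ ?_ ?_
        · intro v hv
          rw [mem_filter] at hv
          rw [mem_filter, hmem]
          exact ⟨mem_univ _, hv.2.2, v, hv.2.1, rfl⟩
        · intro v hv v' hv' h
          rw [mem_filter] at hv hv'
          exact inj_col hXw (hv.2.1.trans hv'.2.1.symm) h
        · intro β hβ
          rw [mem_filter, hmem] at hβ
          obtain ⟨_, h3, i, h4, h5⟩ := hβ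
          exact ⟨i, by rw [mem_filter]; exact ⟨mem_univ _, h4, h5 ▸ h3⟩, h5⟩
      rw [h2]
      unfold Hb hgt
      rw [← card_union_of_disjoint]
      · congr 1
        ext v
        simp only [mem_union, mem_filter, mem_univ, true_and]
        rfl
      · rw [disjoint_left]
        intro i hi hi'
        rw [mem_filter] at hi hi'
        have := hi.2
        have := hi'.2.1
        simp only [hX] at this
        omega
    have h9 : n * (c : ℕ) ≤ m * hgt x c := hdiag c c.2
    rw [h1, rk_add h9]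
    rfl
  -- expand the left hand side
  have hL : ((∑ α : Fin N, cstat ((m + 1) * m)
      (cbef ((m + 1) * m) (fun c : Fin m => rk m n c (hgt x c)) (colsOf x w) α)
      (colsOf x w α) : ℕ) : ℤ) =
      ∑ u : Fin n, ∑ c ∈ range (X u),
        if (¬ ∃ i, X i = c ∧ w i = w u) ∧ (Hb X w c (w u) : ℤ) = yy m X u c then (1 : ℤ)
          else 0 := by
    have h1 : ∀ α : Fin N, ((cstat ((m + 1) * m)
      (cbef ((m + 1) * m) (fun c : Fin m => rk m n c (hgt x c)) (colsOf x w) α)
      (colsOf x w α) : ℕ) : ℤ) = ∑ p2 : Fin m, if p2 ∈ colsOf x w α then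
        (∑ p1 : Fin m, if p1 < p2 ∧ p1 ∉ colsOf x w α ∧
          (rk m n p2 (Hb X w p2 α) < rk m n p1 (Hb X w p1 α) ∧
            rk m n p1 (Hb X w p1 α) < rk m n p2 (Hb X w p2 α) + (m + 1) * m)
          then (1 : ℤ) else 0) else 0 := by
      intro α
      unfold cstat
      rw [← Finset.sum_boole, ← Finset.univ_product_univ, Finset.sum_product_right]
      refine Finset.sum_congr rfl fun p2 _ => ?_
      split_ifs with h
      · refine Finset.sum_congr rfl fun p1 _ => ?_
        simp only [hbef]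
        refine if_congr ?_ rfl rfl
        constructor
        · rintro ⟨a1, a2, _, a3, a4⟩; exact ⟨a1, a2, a3, a4⟩
        · rintro ⟨a1, a2, a3, a4⟩; exact ⟨a1, a2, h, a3, a4⟩
      · refine Finset.sum_eq_zero fun p1 _ => ?_
        rw [if_neg (fun h' => h h'.2.2.1)]
    rw [Nat.cast_sum]
    simp only [h1]
    rw [← Finset.sum_product', ← Finset.sum_filter]
    have h2 : (univ ×ˢ univ : Finset (Fin N × Fin m)).filter (fun p => p.2 ∈ colsOf x w p.1) =
        univ.image (fun u : Fin n => (w u, x u)) := by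
      ext ⟨α, c⟩
      simp only [mem_filter, mem_product, mem_univ, true_and, mem_image, Prod.mk.injEq, hmem]
      constructor
      · rintro ⟨i, h3, h4⟩; exact ⟨i, h4, Fin.ext h3⟩
      · rintro ⟨i, h3, h4⟩; exact ⟨i, congrArg Fin.val h4, h3⟩
    rw [h2, Finset.sum_image (by
      intro u _ v _ h
      exact inj_col hXw (congrArg (fun p => (p.2 : ℕ)) h) (congrArg (fun p => p.1) h))]
    refine Finset.sum_congr rfl fun u _ => ?_
    have h3 : ∀ p1 : Fin m, (if p1 < x u ∧ p1 ∉ colsOf x w (w u) ∧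
          (rk m n (x u) (Hb X w (x u) (w u)) < rk m n p1 (Hb X w p1 (w u)) ∧
            rk m n p1 (Hb X w p1 (w u)) < rk m n (x u) (Hb X w (x u) (w u)) + (m + 1) * m)
          then (1 : ℤ) else 0) = (fun c : ℕ => if c < X u then
            (if (¬ ∃ i, X i = c ∧ w i = w u) ∧ (Hb X w c (w u) : ℤ) = yy m X u c then (1 : ℤ)
          else 0) else 0) (p1 : ℕ) := by
      intro p1
      show _ = if (p1 : ℕ) < X u then _ else _
      by_cases h4 : p1 < x u
      · have h5 : (p1 : ℕ) < X u := h4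
        rw [if_pos h5]
        refine if_congr ?_ rfl rfl
        have h6 : Hb X w (x u) (w u) = u := Hb_self hXm hXw u
        have h7 : n * (p1 : ℕ) ≤ m * Hb X w p1 (w u) :=
          (hdiag p1 p1.2).trans (Nat.mul_le_mul_left m (hh_le_Hb _ _))
        rw [h6, rk_cond h5 (x u).2 (hD u) h7, hmem]
        simp only [h4, true_and]
        rfl
      · have h5 : ¬ (p1 : ℕ) < X u := h4
        rw [if_neg (fun h => h4 h.1), if_neg h5]
    simp only [h3]
    rw [Fin.sum_univ_eq_sum_range (fun c : ℕ => if c < X u then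
            (if (¬ ∃ i, X i = c ∧ w i = w u) ∧ (Hb X w c (w u) : ℤ) = yy m X u c then (1 : ℤ)
          else 0) else 0) m, ← Finset.sum_filter]
    refine Finset.sum_congr ?_ fun _ _ => rfl
    ext c
    rw [mem_filter, mem_range, mem_range]
    have := (x u).2
    simp only [hX]
    omega
  rw [hL, tdinv_eq]
  unfold cst
  rw [← Finset.sum_add_distrib]
  refine Finset.sum_congr rfl fun u _ => ?_
  simp only [local_id hXm hXw]
  rw [Finset.sum_add_distrib, Finset.sum_add_distrib]
  have hm : 0 < m := lt_of_le_of_lt (Nat.zero_le _) (x u).2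
  congr 1
  congr 1
  · rw [Finset.sum_comm]
    refine Finset.sum_congr rfl fun v _ => ?_
    have h1 := sum_cols (x := X) u v (fun c => w u < w v ∧ ((v : ℕ) : ℤ) = yy m X u c)
    simp only [and_assoc] at h1 ⊢
    rw [h1]
    refine if_congr ?_ rfl rfl
    have h2 := att_left hm hXm u v
    constructor
    · rintro ⟨a1, a2, a3⟩
      have := h2.1 ⟨a1, a3⟩
      exact ⟨this.1, this.2, a2⟩
    · rintro ⟨a1, a2, a3⟩
      have := h2.2 ⟨a1, a2⟩
      exact ⟨this.1, a3, this.2⟩
  · rw [Finset.sum_comm]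
    refine Finset.sum_congr rfl fun v _ => ?_
    have h1 := sum_cols (x := X) u v (fun c => w v < w u ∧ ((v : ℕ) : ℤ) = yy m X u c - 1)
    simp only [and_assoc] at h1 ⊢
    rw [h1]
    refine if_congr ?_ rfl rfl
    have h2 := att_right hm hXm u v
    constructor
    · rintro ⟨a1, a2, a3⟩
      have := h2.1 ⟨a1, a3⟩
      exact ⟨this.1, this.2, a2⟩
    · rintro ⟨a1, a2, a3⟩
      have := h2.2 ⟨a1, a2⟩
      exact ⟨this.1, a3, this.2⟩

end Pool.Agent.Lib.MP_0e7911_co_h89
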